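import Mathlib
import Pool.Agent.W313.BMX.Stm
import Pool.Agent.TH766.HP.Defs
import Pool.Agent.TH783.CE.Thin

/-!
# Project PC: the pole relation and families of quadratic forms of every rank

Statements of the packages (leader helper610). `D i` are polynomials with integral coefficients, the
form at `a` is the diagonal form with the entries `D i (a)`.
-/

set_option autoImplicit false

namespace Pool.Agent.U610.PC

open Polynomial Pool.Agent.TH766.HP Pool.Agent.TH783.CE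

/-- the diagonal quadratic form with the entries `d i` is isotropic -/
def Iso {F : Type} [Field F] {n : ℕ} (d : Fin n → F) : Prop :=
  ∃ y : Fin n → F, y ≠ 0 ∧ ∑ i, d i * y i ^ 2 = 0

/-- the polynomial `P` over `ℚ` -/
noncomputable abbrev q (P : ℤ[X]) : ℚ[X] := P.map (Int.castRingHom ℚ)

/-- `T` is a square modulo `P` (over `ℚ`) -/
def SqMod (P T : ℤ[X]) : Prop := ∃ h : ℚ[X], q P ∣ q T - h ^ 2

/-- At all large primes `p` the form is isotropic over `ℚ_p` at all `p`-adic integers (at which no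
entry vanishes). -/
def Good {n : ℕ} (D : Fin n → ℤ[X]) : Prop :=
  ∃ N : ℕ, ∀ (p : ℕ) [Fact p.Prime], N < p → ∀ x : ℤ_[p],
    (∀ i, aeval ((x : ℤ_[p]) : ℚ_[p]) (D i) ≠ 0) →
      Iso fun i => (aeval ((x : ℤ_[p]) : ℚ_[p]) (D i) : ℚ_[p])

/-- There are arbitrarily large primes `p` and classes modulo `p ^ 2` at which the form is
anisotropic over `ℚ_p`. -/
def Obstr {n : ℕ} (D : Fin n → ℤ[X]) : Prop :=
  ∀ N : ℕ, ∃ (p : ℕ) (_ : Fact p.Prime) (a₀ : ℤ), N < p ∧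
    ∀ a : ℤ, (p : ℤ) ^ 2 ∣ a - a₀ → ¬ Iso fun i => (((D i).eval a : ℤ) : ℚ_[p])

/-- Package CHEB. -/
def S_CHEB : Prop := ∀ P T U : ℤ[X], Irreducible (q P) → ¬ SqMod P T → ¬ SqMod P U →
  ∀ N : ℕ, ∃ (p : ℕ) (_ : Fact p.Prime) (a : ℤ), N < p ∧ (p : ℤ) ∣ P.eval a ∧
    ¬ IsSquare ((T.eval a : ℤ) : ZMod p) ∧ ¬ IsSquare ((U.eval a : ℤ) : ZMod p)

/-- Package RES. -/
def S_RES : Prop := ∀ P R : ℤ[X], IsCoprime (q P) (q R) → ∃ N : ℕ, ∀ (p : ℕ) [Fact p.Prime],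
  N < p → ∀ x : ℤ_[p], ‖(aeval x P : ℤ_[p])‖ < 1 → ‖(aeval x R : ℤ_[p])‖ = 1

/-- Package FACT: (1) at a large prime either all entries are units at `x`, or one of finitely many
irreducible polynomials is divisible by `p` at `x`; (2) powers of an irreducible polynomial are
split off. -/
def S_FACT : Prop :=
  (∀ (n : ℕ) (D : Fin n → ℤ[X]), (∀ i, D i ≠ 0) → ∃ (N : ℕ) (S : Finset ℤ[X]),
    (∀ P ∈ S, Irreducible (q P)) ∧ ∀ (p : ℕ) [Fact p.Prime], N < p → ∀ x : ℤ_[p],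
      (∀ i, ‖(aeval x (D i) : ℤ_[p])‖ = 1) ∨ ∃ P ∈ S, ‖(aeval x P : ℤ_[p])‖ < 1) ∧
  ∀ (n : ℕ) (D : Fin n → ℤ[X]) (P : ℤ[X]), (∀ i, D i ≠ 0) → Irreducible (q P) →
    ∃ (c : ℤ) (e : Fin n → ℕ) (R : Fin n → ℤ[X]), c ≠ 0 ∧
      ∀ i, C (c ^ 2) * D i = P ^ e i * R i ∧ IsCoprime (q P) (q (R i))

/-- The condition on the exponents and cofactors at `P` for isotropy: three entries with exponents
of the same parity, or two such that minus the product of the cofactors is a square modulo `P`. -/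
def Free {n : ℕ} (P : ℤ[X]) (e : Fin n → ℕ) (R : Fin n → ℤ[X]) : Prop :=
  (∃ i j k, i ≠ j ∧ i ≠ k ∧ j ≠ k ∧ e i % 2 = e j % 2 ∧ e i % 2 = e k % 2) ∨
  ∃ i j, i ≠ j ∧ e i % 2 = e j % 2 ∧ SqMod P (-(R i * R j))

/-- Package LOCF (uses S_RES): isotropy at the large primes which divide the value of `P`. -/
def S_LOCF : Prop := ∀ (n : ℕ) (P : ℤ[X]) (e : Fin n → ℕ) (R : Fin n → ℤ[X]),
  (∀ i, IsCoprime (q P) (q (R i))) → Free P e R → ∃ N : ℕ, ∀ (p : ℕ) [Fact p.Prime], N < p →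
    ∀ x : ℤ_[p], ‖(aeval x P : ℤ_[p])‖ < 1 → (aeval x P : ℤ_[p]) ≠ 0 →
      Iso fun i => ((aeval x (P ^ e i * R i) : ℤ_[p]) : ℚ_[p])

/-- Package UNI: three units at an odd prime. -/
def S_UNI : Prop := ∀ (p : ℕ) [Fact p.Prime], p ≠ 2 → ∀ (n : ℕ), 3 ≤ n → ∀ d : Fin n → ℤ_[p],
  (∀ i, ‖d i‖ = 1) → Iso fun i => ((d i : ℤ_[p]) : ℚ_[p])

/-- Package ANI: anisotropic forms over `ℚ_p`. -/
def S_ANI : Prop := ∀ (p : ℕ) [Fact p.Prime], p ≠ 2 → ∀ (n : ℕ) (e : Fin n → ℕ) (u : Fin n → ℤ),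
  (∀ i, ¬ (p : ℤ) ∣ u i) →
  (¬ ∃ i j k, i ≠ j ∧ i ≠ k ∧ j ≠ k ∧ e i % 2 = e j % 2 ∧ e i % 2 = e k % 2) →
  (∀ i j, i ≠ j → e i % 2 = e j % 2 → ¬ IsSquare (((-(u i * u j) : ℤ)) : ZMod p)) →
    ¬ Iso fun i => (((p : ℤ) ^ e i * u i : ℤ) : ℚ_[p])

/-- Package OBS (uses S_CHEB, S_RES, S_ANI): the obstruction at `P`. -/
def S_OBS : Prop := ∀ (n : ℕ), 3 ≤ n → ∀ (P : ℤ[X]) (e : Fin n → ℕ) (R : Fin n → ℤ[X]),
  Irreducible (q P) → (∀ i, IsCoprime (q P) (q (R i))) → ¬ Free P e R →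
    Obstr fun i => P ^ e i * R i

/-- Package DICH (uses S_RES, S_FACT, S_UNI, S_LOCF, S_OBS). -/
def S_DICH : Prop := ∀ (n : ℕ), 3 ≤ n → ∀ D : Fin n → ℤ[X], (∀ i, D i ≠ 0) → Good D ∨ Obstr D

/-- Package HM: the theorem of Hasse and Minkowski in four variables. -/
def S_HM : Prop := ∀ d : Fin 4 → ℤ, (∀ i, d i ≠ 0) → (Iso fun i => ((d i : ℤ) : ℝ)) →
  (∀ (p : ℕ) [Fact p.Prime], Iso fun i => ((d i : ℤ) : ℚ_[p])) → Iso fun i => ((d i : ℤ) : ℚ)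

/-- Package HMN (uses S_HM): the theorem of Hasse and Minkowski in at least three variables. -/
def S_HMN : Prop := ∀ (n : ℕ), 3 ≤ n → ∀ d : Fin n → ℚ, (∀ i, d i ≠ 0) →
  (Iso fun i => ((d i : ℚ) : ℝ)) → (∀ (p : ℕ) [Fact p.Prime], Iso fun i => ((d i : ℚ) : ℚ_[p])) →
    Iso d

/-- Package CLO: isotropy is stable under small changes of the parameter, and near infinity the
entries have the square classes of the leading coefficients at squares. -/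
def S_CLO : Prop := ∀ (n : ℕ) (D : Fin n → ℤ[X]) (a : ℚ), (∀ i, aeval a (D i) ≠ 0) →
  (Iso fun i => (aeval a (D i) : ℚ)) →
  (∃ δ : ℝ, 0 < δ ∧ ∀ b : ℚ, |((b - a : ℚ) : ℝ)| < δ →
    (∀ i, aeval b (D i) ≠ 0) ∧ Iso fun i => ((aeval b (D i) : ℚ) : ℝ)) ∧
  ∀ (p : ℕ) [Fact p.Prime], ∃ δ : ℝ, 0 < δ ∧ ∀ b : ℚ, ‖((b - a : ℚ) : ℚ_[p])‖ < δ →
    Iso fun i => ((aeval b (D i) : ℚ) : ℚ_[p])

/-- Package INF: near infinity. -/
def S_INF : Prop := ∀ (n : ℕ), 2 ≤ n → ∀ D : Fin n → ℤ[X], (∀ i, D i ≠ 0) → ∃ N : ℕ,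
  ∀ (p : ℕ) [Fact p.Prime], N < p → IsSquare (-1 : ℚ_[p]) →
    (∀ i, IsSquare (((D i).leadingCoeff : ℤ) : ℚ_[p])) → ∀ b : ℚ, 1 < ‖(b : ℚ_[p])‖ →
      IsSquare (b : ℚ_[p]) → Iso fun i => ((aeval b (D i) : ℚ) : ℚ_[p])

/-- Package PERT (uses S_HMN, S_CLO, S_INF): from one isotropic specialisation of a good family to one
with a pole. -/
def S_PERT : Prop := ∀ (n : ℕ), 3 ≤ n → ∀ D : Fin n → ℤ[X], Good D → ∀ Q : Set ℕ, Rich Q →
  ∀ a : ℚ, (∀ i, aeval a (D i) ≠ 0) → (Iso fun i => (aeval a (D i) : ℚ)) →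
    ∀ E : Set ℚ, E.Finite → ∃ (p : ℕ) (_ : Fact p.Prime) (b : ℚ), p ∈ Q ∧ 1 < ‖(b : ℚ_[p])‖ ∧
      b ∉ E ∧ Iso fun i => (aeval b (D i) : ℚ)

/-- Package APT: a thin set does not contain all integers of an arithmetic progression. -/
def S_APT : Prop := ∀ D : Set ℚ, Thin D → ∀ (M : ℕ) (a : ℤ), 0 < M → ∀ B : ℤ,
  ∃ u : ℤ, B < u ∧ (M : ℤ) ∣ u - a ∧ ((u : ℤ) : ℚ) ∉ D

/-- Package RK2: forms of rank at most two. -/
def S_RK2 : Prop := ∀ (n : ℕ), n ≤ 2 → ∀ D : Fin n → ℤ[X], (∀ i, D i ≠ 0) →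
  Thin {a : ℚ | Iso fun i => (aeval a (D i) : ℚ)} ∨
    {a : ℚ | ¬ Iso fun i => (aeval a (D i) : ℚ)}.Finite

/-- Package DIAG: the solvability of a quadratic equation with a symmetric matrix `A` of polynomials,
up to finitely many parameters: always, or the isotropy of a diagonal form. -/
def S_DIAG : Prop := ∀ (m : ℕ) (A : Matrix (Fin (m + 1)) (Fin (m + 1)) ℚ[X]), A.IsSymm →
  {a : ℚ | ¬ ∃ y : Fin (m + 1) → ℚ, y 0 = 1 ∧
    y ⬝ᵥ (A.map (Polynomial.eval a)).mulVec y = 0}.Finite ∨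
  ∃ (n : ℕ) (D : Fin n → ℤ[X]), (∀ i, D i ≠ 0) ∧
    {a : ℚ | ¬ ((∃ y : Fin (m + 1) → ℚ, y 0 = 1 ∧
      y ⬝ᵥ (A.map (Polynomial.eval a)).mulVec y = 0) ↔
        Iso fun i => (aeval a (D i) : ℚ))}.Finite

/-- Main theorem on one variable families (uses S_DICH, S_PERT, S_APT, S_RK2, S_DIAG): finitely many
families of quadratic equations and a thin set do not cover the integers if the families have no
solution at the elements with a pole at a prime of `Q`. -/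
def S_MAIN : Prop := ∀ (Q : Set ℕ), Rich Q → ∀ (s : ℕ) (m : Fin s → ℕ)
  (A : ∀ i, Matrix (Fin (m i + 1)) (Fin (m i + 1)) ℚ[X]), (∀ i, (A i).IsSymm) →
  (∀ (i : Fin s) (a : ℚ), (∃ y : Fin (m i + 1) → ℚ, y 0 = 1 ∧
    y ⬝ᵥ ((A i).map (Polynomial.eval a)).mulVec y = 0) →
      ∀ (p : ℕ) [Fact p.Prime], p ∈ Q → ‖(a : ℚ_[p])‖ ≤ 1) →
  ∀ D : Set ℚ, Thin D → ∀ B : ℤ, ∃ u : ℤ, B < u ∧ ((u : ℤ) : ℚ) ∉ D ∧
    ∀ i, ¬ ∃ y : Fin (m i + 1) → ℚ, y 0 = 1 ∧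
      y ⬝ᵥ ((A i).map (Polynomial.eval ((u : ℤ) : ℚ))).mulVec y = 0

end Pool.Agent.U610.PC
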