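import Pool.Agent.U610.PC.StmC
import Pool.Agent.U373.PC.T_MAIN

/-!
# Project PC: package MAINC, after helper373's proof of MAIN
-/

set_option autoImplicit false

namespace Pool.Agent.U610.PC

open Polynomial Pool.Agent.TH766.HP Pool.Agent.TH783.CE
open Pool.Agent.U373.PC (exists_pole zeros_finite iso_cast)

/-- `Sol` is decided by a diagonal form in at least three variables off a finite set -/
def Typ {m : ℕ} (A : Matrix (Fin (m + 1)) (Fin (m + 1)) ℚ[X]) (P : ∀ n, (Fin n → ℤ[X]) → Prop) :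
    Prop :=
  ∃ (n : ℕ) (D : Fin n → ℤ[X]) (F : Set ℚ), 3 ≤ n ∧ (∀ i, D i ≠ 0) ∧ F.Finite ∧
    (∀ a : ℚ, a ∉ F → (Sol A a ↔ Iso fun i => (aeval a (D i) : ℚ))) ∧ P n D

lemma cls (hD : S_DICH) (hR : S_RK2) (hG : S_DIAG)
    {m : ℕ} (A : Matrix (Fin (m + 1)) (Fin (m + 1)) ℚ[X]) (hA : A.IsSymm) :
    (∃ F : Set ℚ, F.Finite ∧ ∀ a, a ∉ F → Sol A a) ∨
    (∃ Z : Set ℚ, Thin Z ∧ ∀ a, a ∉ Z → ¬ Sol A a) ∨
    Typ A (fun _ D => Good D) ∨ Typ A (fun _ D => Obstr D) := by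
  rcases hG m A hA with h | ⟨n, D, hD0, hF⟩
  · refine Or.inl ⟨_, h, fun a ha => ?_⟩
    by_contra hc
    exact ha hc
  · set F : Set ℚ := {a : ℚ | ¬ ((∃ y : Fin (m + 1) → ℚ, y 0 = 1 ∧
      y ⬝ᵥ (A.map (Polynomial.eval a)).mulVec y = 0) ↔
        Iso fun i => (aeval a (D i) : ℚ))} with hFdef
    have hiff : ∀ a : ℚ, a ∉ F → (Sol A a ↔ Iso fun i => (aeval a (D i) : ℚ)) := by
      intro a ha
      by_contra hc
      exact ha hc
    rcases Nat.lt_or_ge 2 n with hn | hn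
    · rcases hD n hn D hD0 with hgood | hobs
      · exact Or.inr (Or.inr (Or.inl ⟨n, D, F, hn, hD0, hF, hiff, hgood⟩))
      · exact Or.inr (Or.inr (Or.inr ⟨n, D, F, hn, hD0, hF, hiff, hobs⟩))
    · rcases hR n hn D hD0 with hthin | hfin
      · refine Or.inr (Or.inl ⟨F ∪ {a : ℚ | Iso fun i => (aeval a (D i) : ℚ)},
          (Thin.of_finite hF).union hthin, ?_⟩)
        intro a ha hsol
        exact ha (Or.inr ((hiff a (fun h => ha (Or.inl h))).1 hsol))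
      · refine Or.inl ⟨F ∪ {a : ℚ | ¬ Iso fun i => (aeval a (D i) : ℚ)}, hF.union hfin,
          fun b hb => ?_⟩
        refine (hiff b (fun h => hb (Or.inl h))).2 ?_
        by_contra hc
        exact hb (Or.inr hc)

/-- the dichotomy for one conjunction -/
lemma claimC (hD : S_DICH) (hP : S_PERTC) (hR : S_RK2) (hG : S_DIAG) {Q : Set ℕ} (hQ : Rich Q)
    {c : ℕ} (m : Fin c → ℕ) (A : ∀ j, Matrix (Fin (m j + 1)) (Fin (m j + 1)) ℚ[X])
    (hA : ∀ j, (A j).IsSymm)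
    (hpole : ∀ a : ℚ, (∀ j, Sol (A j) a) → ∀ (p : ℕ) [Fact p.Prime], p ∈ Q →
      ‖(a : ℚ_[p])‖ ≤ 1) :
    ∃ Z : Set ℚ, Thin Z ∧ ((∀ a : ℚ, a ∉ Z → ¬ ∀ j, Sol (A j) a) ∨
      ∃ (n : ℕ) (D : Fin n → ℤ[X]), Obstr D ∧
        ∀ a : ℚ, a ∉ Z → (∀ j, Sol (A j) a) → Iso fun i => (aeval a (D i) : ℚ)) := by
  classical
  by_cases h1 : ∃ j, ∃ Z : Set ℚ, Thin Z ∧ ∀ a, a ∉ Z → ¬ Sol (A j) a
  · obtain ⟨j, Z, hZ, h⟩ := h1
    exact ⟨Z, hZ, Or.inl fun a ha hc => h a ha (hc j)⟩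
  by_cases h2 : ∃ j, Typ (A j) (fun _ D => Obstr D)
  · obtain ⟨j, n, D, F, -, -, hF, hiff, hobs⟩ := h2
    exact ⟨F, Thin.of_finite hF, Or.inr ⟨n, D, hobs, fun a ha hc => (hiff a ha).1 (hc j)⟩⟩
  push Not at h1 h2
  have h3 : ∀ j, (∃ F : Set ℚ, F.Finite ∧ ∀ a, a ∉ F → Sol (A j) a) ∨
      Typ (A j) (fun _ D => Good D) := by
    intro j
    rcases cls hD hR hG (A j) (hA j) with h | ⟨Z, hZ, h⟩ | h | h
    · exact Or.inl h
    · obtain ⟨a, ha, hs⟩ := h1 j Z hZ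
      exact absurd hs (h a ha)
    · exact Or.inr h
    · exact absurd h (h2 j)
  let ι := {j : Fin c // Typ (A j) (fun _ D => Good D)}
  have h4 : ∀ j : ι, Typ (A j.1) (fun _ D => Good D) := fun j => j.2
  choose n D F hn hD0 hF hiff hgood using h4
  have h5 : ∀ j : Fin c, ∃ F' : Set ℚ, F'.Finite ∧
      (¬ Typ (A j) (fun _ D => Good D) → ∀ a, a ∉ F' → Sol (A j) a) := by
    intro j
    rcases h3 j with ⟨F', hF', h⟩ | h
    · exact ⟨F', hF', fun _ => h⟩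
    · exact ⟨∅, Set.finite_empty, fun h' => absurd h h'⟩
  choose F' hF' hsol using h5
  set E : Set ℚ := (⋃ j, F j) ∪ (⋃ j, F' j) ∪ ⋃ j : ι, {a : ℚ | ∃ i, aeval a (D j i) = 0} with hE
  have hEfin : E.Finite := ((Set.finite_iUnion hF).union (Set.finite_iUnion hF')).union
    (Set.finite_iUnion fun j => zeros_finite (D j) (hD0 j))
  refine ⟨E, Thin.of_finite hEfin, Or.inl fun a ha hc => ?_⟩
  have e1 : ∀ b : ℚ, b ∉ E → ∀ j, b ∉ F j := fun b hb j h =>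
    hb (Or.inl (Or.inl (Set.mem_iUnion.2 ⟨j, h⟩)))
  have e2 : ∀ b : ℚ, b ∉ E → ∀ j, b ∉ F' j := fun b hb j h =>
    hb (Or.inl (Or.inr (Set.mem_iUnion.2 ⟨j, h⟩)))
  have e3 : ∀ (j : ι) i, aeval a (D j i) ≠ 0 := fun j i h =>
    ha (Or.inr (Set.mem_iUnion.2 ⟨j, ⟨i, h⟩⟩))
  obtain ⟨p, hp, b, hpQ, hb, hbE, hiso⟩ := hP ι n hn D hgood Q hQ a e3
    (fun j => (hiff j a (e1 a ha j)).1 (hc j.1)) E hEfin
  refine absurd (hpole b (fun j => ?_) p hpQ) (not_le.2 hb)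
  by_cases hj : Typ (A j) (fun _ D => Good D)
  · exact (hiff ⟨j, hj⟩ b (e1 b hbE ⟨j, hj⟩)).2 (hiso ⟨j, hj⟩)
  · exact hsol j hj b (e2 b hbE j)

/-- **package MAINC** -/
theorem t_MAINC (hD : S_DICH) (hP : S_PERTC) (hR : S_RK2) (hG : S_DIAG) : S_MAINC := by
  intro Q hQ s c m A hsymm hpole
  have hc : ∀ i, ∃ Z : Set ℚ, Thin Z ∧ ((∀ a : ℚ, a ∉ Z → ¬ ∀ j, Sol (A i j) a) ∨
      ∃ (n : ℕ) (D : Fin n → ℤ[X]), Obstr D ∧
        ∀ a : ℚ, a ∉ Z → (∀ j, Sol (A i j) a) → Iso fun i => (aeval a (D i) : ℚ)) := fun i =>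
    claimC hD hP hR hG hQ (m i) (A i) (hsymm i) (fun a ha p _ hp => hpole i a ha p hp)
  choose Z hZ hcase using hc
  have hind : ∀ J : Finset (Fin s), ∃ (M : ℕ) (a₀ : ℤ), 0 < M ∧ ∀ u : ℤ, (M : ℤ) ∣ u - a₀ →
      ∀ i ∈ J, ((u : ℤ) : ℚ) ∉ Z i → ¬ ∀ j, Sol (A i j) ((u : ℤ) : ℚ) := by
    classical
    intro J
    induction J using Finset.induction_on with
    | empty => exact ⟨1, 0, one_pos, fun u _ i hi => absurd hi (Finset.notMem_empty i)⟩
    | insert i J hiJ ih =>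
      obtain ⟨M, a₀, hM, hJ⟩ := ih
      rcases hcase i with h | ⟨n, D', hobs, hiso⟩
      · refine ⟨M, a₀, hM, fun u hu j hj hjZ => ?_⟩
        rcases Finset.mem_insert.1 hj with rfl | hj
        · exact h _ hjZ
        · exact hJ u hu j hj hjZ
      · obtain ⟨p, hp, a₁, hpM, hp1⟩ := hobs M
        have hcop : IsCoprime (M : ℤ) ((p : ℤ) ^ 2) := by
          apply IsCoprime.pow_right
          rw [Nat.isCoprime_iff_coprime]
          exact (Nat.coprime_of_lt_prime hM.ne' hpM hp.out).symm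
        obtain ⟨x, y, hxy⟩ := hcop
        refine ⟨M * p ^ 2, a₁ * (x * M) + a₀ * (y * (p : ℤ) ^ 2), by
          have := hp.out.pos
          positivity, fun u hu j hj hjZ => ?_⟩
        have hu' : ((M : ℤ) * (p : ℤ) ^ 2) ∣ u - (a₁ * (x * M) + a₀ * (y * (p : ℤ) ^ 2)) := by
          have := hu
          push_cast at this
          exact this
        have hu1 : (M : ℤ) ∣ u - a₀ := by
          have h1 : (M : ℤ) ∣ u - (a₁ * (x * M) + a₀ * (y * (p : ℤ) ^ 2)) :=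
            (Dvd.intro _ rfl).trans hu'
          have h2 : u - a₀ = (u - (a₁ * (x * M) + a₀ * (y * (p : ℤ) ^ 2))) +
              M * (x * (a₁ - a₀)) := by
            have h3 : y * (p : ℤ) ^ 2 = 1 - x * M := by linarith
            rw [h3]; ring
          rw [h2]
          exact dvd_add h1 (Dvd.intro _ rfl)
        have hu2 : (p : ℤ) ^ 2 ∣ u - a₁ := by
          have h1 : (p : ℤ) ^ 2 ∣ u - (a₁ * (x * M) + a₀ * (y * (p : ℤ) ^ 2)) :=
            (Dvd.intro_left _ rfl).trans hu'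
          have h2 : u - a₁ = (u - (a₁ * (x * M) + a₀ * (y * (p : ℤ) ^ 2))) +
              (p : ℤ) ^ 2 * (y * (a₀ - a₁)) := by
            have h3 : x * (M : ℤ) = 1 - y * (p : ℤ) ^ 2 := by linarith
            rw [h3]; ring
          rw [h2]
          exact dvd_add h1 (Dvd.intro _ rfl)
        rcases Finset.mem_insert.1 hj with rfl | hj
        · intro hsol
          exact hp1 u hu2 (iso_cast D' u p (hiso _ hjZ hsol))
        · exact hJ u hu1 j hj hjZ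
  obtain ⟨M, a₀, hM, hall⟩ := hind Finset.univ
  refine ⟨M, a₀, ⋃ i ∈ (Set.univ : Set (Fin s)), Z i, hM,
    Thin.biUnion Set.finite_univ (fun i _ => hZ i), fun u hu huZ i => ?_⟩
  exact hall u hu i (Finset.mem_univ i) (fun h => huZ (Set.mem_biUnion (Set.mem_univ i) h))

end Pool.Agent.U610.PC
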