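import Pool.Agent.U610.PC.Stm

/-!
# Project PC: finite unions of finite conjunctions of quadratic equations
-/

set_option autoImplicit false

namespace Pool.Agent.U610.PC

open Polynomial Pool.Agent.TH766.HP Pool.Agent.TH783.CE

/-- the quadratic equation `(1, z)ᵀ A(a) (1, z) = 0` has a solution `z` -/
def Sol {m : ℕ} (A : Matrix (Fin (m + 1)) (Fin (m + 1)) ℚ[X]) (a : ℚ) : Prop :=
  ∃ y : Fin (m + 1) → ℚ, y 0 = 1 ∧ y ⬝ᵥ (A.map (Polynomial.eval a)).mulVec y = 0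

/-- Package PERTC (uses S_HMN, S_CLO, S_INF): simultaneous perturbation of finitely many good
families. -/
def S_PERTC : Prop := ∀ (ι : Type) [Finite ι] (n : ι → ℕ), (∀ j, 3 ≤ n j) →
  ∀ D : ∀ j, Fin (n j) → ℤ[X], (∀ j, Good (D j)) → ∀ Q : Set ℕ, Rich Q →
  ∀ a : ℚ, (∀ j i, aeval a (D j i) ≠ 0) → (∀ j, Iso fun i => (aeval a (D j i) : ℚ)) →
    ∀ E : Set ℚ, E.Finite → ∃ (p : ℕ) (_ : Fact p.Prime) (b : ℚ), p ∈ Q ∧ 1 < ‖(b : ℚ_[p])‖ ∧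
      b ∉ E ∧ ∀ j, Iso fun i => (aeval b (D j i) : ℚ)

/-- Package MAINC (uses S_DICH, S_PERTC, S_RK2, S_DIAG): finitely many conjunctions of quadratic
equations, which have no common parameter with a pole at a prime of `Q`, fail at all integers of an
arithmetic progression which do not lie in a thin set. -/
def S_MAINC : Prop := ∀ (Q : Set ℕ), Rich Q → ∀ (s : ℕ) (c : Fin s → ℕ) (m : ∀ i, Fin (c i) → ℕ)
  (A : ∀ i j, Matrix (Fin (m i j + 1)) (Fin (m i j + 1)) ℚ[X]), (∀ i j, (A i j).IsSymm) →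
  (∀ (i : Fin s) (a : ℚ), (∀ j, Sol (A i j) a) →
      ∀ (p : ℕ) [Fact p.Prime], p ∈ Q → ‖(a : ℚ_[p])‖ ≤ 1) →
  ∃ (M : ℕ) (a₀ : ℤ) (Z : Set ℚ), 0 < M ∧ Thin Z ∧ ∀ u : ℤ, (M : ℤ) ∣ u - a₀ →
    ((u : ℤ) : ℚ) ∉ Z → ∀ i, ¬ ∀ j, Sol (A i j) ((u : ℤ) : ℚ)

end Pool.Agent.U610.PC
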