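import Pool.Agent.R565.QF.Conv
import Pool.Agent.R565.QR.Pole
import Pool.Agent.U610.PC.Stm

/-!
# Project PC: polynomials of degree at most two in the quantified variables, and poles
-/

set_option autoImplicit false

namespace Pool.Agent.U610.PC

open MvPolynomial Pool.Agent.R565.QF Pool.Agent.TH783.CE IsDedekindDomain NumberField

/-- fixing the second variable, the first variable becomes a coefficient -/
noncomputable def psl {n : ℕ} (b : ℚ) (f : MvPolynomial (Fin 2 ⊕ Fin n) ℚ) :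
    MvPolynomial (Fin n) (Polynomial ℚ) :=
  f.eval₂ (C.comp Polynomial.C)
    (Sum.elim ![C Polynomial.X, C (Polynomial.C b)] fun j => X j)

lemma eval_psl {n : ℕ} (b : ℚ) (f : MvPolynomial (Fin 2 ⊕ Fin n) ℚ) (a : ℚ) (x : Fin n → ℚ) :
    eval₂ (Polynomial.evalRingHom a) x (psl b f) = eval (Sum.elim ![a, b] x) f := by
  have h0 : eval₂ (Polynomial.evalRingHom a) x (psl b f) =
      eval₂Hom (Polynomial.evalRingHom a) x (psl b f) := rfl
  rw [h0, psl, eval₂_comp_left]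
  have h1 : (eval₂Hom (Polynomial.evalRingHom a) x).comp (C.comp Polynomial.C) =
      RingHom.id ℚ := by
    ext r
    simp
  have h2 : (⇑(eval₂Hom (Polynomial.evalRingHom a) x) ∘ (Sum.elim ![C Polynomial.X,
      C (Polynomial.C b)] fun j : Fin n => X j)) = Sum.elim ![a, b] x := by
    funext s
    rcases s with s | s
    · fin_cases s
      · simp
      · simp
    · simp
  rw [h1, h2]
  rfl

lemma psl_degree {n : ℕ} (b : ℚ) (f : MvPolynomial (Fin 2 ⊕ Fin n) ℚ)
    (hf : ∀ e ∈ f.support, ∑ j, e (Sum.inr j) ≤ 2) : (psl b f).totalDegree ≤ 2 := by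
  rw [psl, eval₂_eq']
  refine totalDegree_finsetSum_le fun m hm => ?_
  refine (totalDegree_mul _ _).trans ?_
  rw [RingHom.comp_apply, totalDegree_C, zero_add]
  refine (totalDegree_finsetProd _ _).trans ?_
  refine le_trans ?_ (hf m hm)
  rw [Fintype.sum_sum_type, Fin.sum_univ_two]
  have e1 : (totalDegree ((Sum.elim ![C Polynomial.X, C (Polynomial.C b)]
      (fun j : Fin n => X j) (Sum.inl 0) :
      MvPolynomial (Fin n) (Polynomial ℚ)) ^ m (Sum.inl 0))) ≤ 0 := by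
    refine (totalDegree_pow _ _).trans ?_
    simp
  have e2 : (totalDegree ((Sum.elim ![C Polynomial.X, C (Polynomial.C b)]
      (fun j : Fin n => X j) (Sum.inl 1) :
      MvPolynomial (Fin n) (Polynomial ℚ)) ^ m (Sum.inl 1))) ≤ 0 := by
    refine (totalDegree_pow _ _).trans ?_
    simp
  have e3 : ∀ j : Fin n, (totalDegree ((Sum.elim ![C Polynomial.X, C (Polynomial.C b)]
      (fun j : Fin n => X j) (Sum.inr j) : MvPolynomial (Fin n) (Polynomial ℚ)) ^
        m (Sum.inr j))) ≤ m (Sum.inr j) := by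
    intro j
    refine (totalDegree_pow _ _).trans ?_
    simp
  have e4 := Finset.sum_le_sum fun j (_ : j ∈ (Finset.univ : Finset (Fin n))) => e3 j
  omega

/-- the symmetric matrix of a polynomial of degree at most two in the quantified variables -/
lemma exists_matrix {n : ℕ} (b : ℚ) (f : MvPolynomial (Fin 2 ⊕ Fin n) ℚ)
    (hf : ∀ e ∈ f.support, ∑ j, e (Sum.inr j) ≤ 2) :
    ∃ A : Matrix (Fin (n + 1)) (Fin (n + 1)) (Polynomial ℚ), A.IsSymm ∧ ∀ a : ℚ,
      (∃ z : Fin n → ℚ, eval (Sum.elim ![a, b] z) f = 0) ↔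
        ∃ y : Fin (n + 1) → ℚ, y 0 = 1 ∧
          y ⬝ᵥ (A.map (Polynomial.eval a)).mulVec y = 0 := by
  obtain ⟨c, l, β, h⟩ := deg_two_ring (psl b f) (psl_degree b f hf)
  set A : Matrix (Fin (n + 1)) (Fin (n + 1)) (Polynomial ℚ) :=
    Matrix.of (Fin.cons (Fin.cons c fun j => Polynomial.C (1 / 2) * l j) fun i =>
      Fin.cons (Polynomial.C (1 / 2) * l i) fun j =>
        Polynomial.C (1 / 2) * (β i j + β j i)) with hA
  have hkey : ∀ (a : ℚ) (z : Fin n → ℚ),
      (Fin.cons 1 z : Fin (n + 1) → ℚ) ⬝ᵥ (A.map (Polynomial.eval a)).mulVec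
        (Fin.cons 1 z : Fin (n + 1) → ℚ) = eval (Sum.elim ![a, b] z) f := by
    intro a z
    rw [← eval_psl, h ℚ (Polynomial.evalRingHom a) z]
    simp only [dotProduct, Matrix.mulVec, Fin.sum_univ_succ, Fin.cons_zero, Fin.cons_succ, hA,
      Matrix.map_apply, Matrix.of_apply, qv, Polynomial.coe_evalRingHom, Polynomial.eval_mul,
      Polynomial.eval_C, Polynomial.eval_add, mul_one, one_mul]
    have h1 : ∑ i, ∑ j, Polynomial.eval a (β i j) * (z i * z j) =
        ∑ i, ∑ j, Polynomial.eval a (β j i) * (z i * z j) := by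
      rw [Finset.sum_comm]
      refine Finset.sum_congr rfl fun i _ => Finset.sum_congr rfl fun j _ => ?_
      ring
    have h2 : ∑ i, z i * (1 / 2 * Polynomial.eval a (l i) +
        ∑ j, 1 / 2 * (Polynomial.eval a (β i j) + Polynomial.eval a (β j i)) * z j) =
        ∑ i, 1 / 2 * Polynomial.eval a (l i) * z i +
        (1 / 2 * ∑ i, ∑ j, Polynomial.eval a (β i j) * (z i * z j) +
          1 / 2 * ∑ i, ∑ j, Polynomial.eval a (β j i) * (z i * z j)) := by
      rw [Finset.mul_sum, Finset.mul_sum, ← Finset.sum_add_distrib, ← Finset.sum_add_distrib]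
      refine Finset.sum_congr rfl fun i _ => ?_
      rw [Finset.mul_sum, Finset.mul_sum, mul_add, Finset.mul_sum, ← Finset.sum_add_distrib]
      congr 1
      · ring
      · refine Finset.sum_congr rfl fun j _ => ?_
        ring
    have h3 : ∑ i, Polynomial.eval a (l i) * z i =
        ∑ i, 1 / 2 * Polynomial.eval a (l i) * z i +
          ∑ i, 1 / 2 * Polynomial.eval a (l i) * z i := by
      rw [← Finset.sum_add_distrib]
      refine Finset.sum_congr rfl fun i _ => ?_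
      ring
    rw [h2, h3, ← h1]
    ring
  refine ⟨A, ?_, fun a => ⟨?_, ?_⟩⟩
  · ext i j
    refine Fin.cases ?_ (fun i => ?_) i <;> refine Fin.cases ?_ (fun j => ?_) j
    · rfl
    · rfl
    · rfl
    · simp only [hA, Matrix.transpose_apply, Matrix.of_apply, Fin.cons_succ]
      rw [add_comm]
  · rintro ⟨z, hz⟩
    exact ⟨Fin.cons 1 z, by simp, by rw [hkey, hz]⟩
  · rintro ⟨y, hy0, hy⟩
    have e : y = Fin.cons 1 fun j => y j.succ := by
      rw [← hy0]
      exact (Fin.cons_self_tail y).symm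
    refine ⟨fun j => y j.succ, ?_⟩
    rw [← hkey, ← e]
    exact hy

/-- elements without pole above `Q` are `p`-adic integers for the primes of `Q` -/
lemma norm_le_one_of_noPole {Q : Set ℕ} {p : ℕ} [hp : Fact p.Prime] (hpQ : p ∈ Q) {a : ℚ}
    (ha : a ∈ NoPole ℚ Q) : ‖(a : ℚ_[p])‖ ≤ 1 := by
  refine Padic.norm_rat_le_one fun hden => ?_
  obtain ⟨v, hv⟩ := Pool.Agent.R565.QR.exists_above hp.out
  have h1 := ha v ⟨p, hp.out, hpQ, hv⟩
  have h2 : v.valuation ℚ ((a.den : 𝓞 ℚ) : ℚ) < 1 := by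
    rw [show ((a.den : 𝓞 ℚ) : ℚ) = algebraMap (𝓞 ℚ) ℚ (a.den : 𝓞 ℚ) from rfl,
      v.valuation_lt_one_iff_mem]
    obtain ⟨c, hc⟩ := hden
    rw [hc]
    push_cast
    exact Ideal.mul_mem_right _ _ hv
  have h3 : v.valuation ℚ ((a.num : 𝓞 ℚ) : ℚ) < 1 := by
    have e : ((a.num : 𝓞 ℚ) : ℚ) = a * ((a.den : 𝓞 ℚ) : ℚ) := by
      simp
    rw [e, map_mul]
    calc v.valuation ℚ a * v.valuation ℚ ((a.den : 𝓞 ℚ) : ℚ)
        ≤ 1 * v.valuation ℚ ((a.den : 𝓞 ℚ) : ℚ) := mul_le_mul_left h1 _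
      _ < 1 := by rwa [one_mul]
  have h4 : (a.den : 𝓞 ℚ) ∈ v.asIdeal := by
    rwa [show ((a.den : 𝓞 ℚ) : ℚ) = algebraMap (𝓞 ℚ) ℚ (a.den : 𝓞 ℚ) from rfl,
      v.valuation_lt_one_iff_mem] at h2
  have h5 : (a.num : 𝓞 ℚ) ∈ v.asIdeal := by
    rwa [show ((a.num : 𝓞 ℚ) : ℚ) = algebraMap (𝓞 ℚ) ℚ (a.num : 𝓞 ℚ) from rfl,
      v.valuation_lt_one_iff_mem] at h3
  have hco : IsCoprime a.num (a.den : ℤ) := by
    rw [Int.isCoprime_iff_gcd_eq_one]
    exact a.reduced
  obtain ⟨x, y, hxy⟩ := hco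
  apply v.isPrime.ne_top
  rw [Ideal.eq_top_iff_one]
  have e : (1 : 𝓞 ℚ) = (x : 𝓞 ℚ) * (a.num : 𝓞 ℚ) + (y : 𝓞 ℚ) * (a.den : 𝓞 ℚ) := by
    have := congrArg (Int.cast : ℤ → 𝓞 ℚ) hxy
    push_cast at this
    exact this.symm
  rw [e]
  exact v.asIdeal.add_mem (Ideal.mul_mem_left _ _ h5) (Ideal.mul_mem_left _ _ h4)

end Pool.Agent.U610.PC
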