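import Pool.Agent.N455.PR.Alg
import Pool.Agent.R565.QF.Conv
import Pool.Agent.R565.QR.Pole
import Pool.Agent.U610.PC.StmC

/-!
# Project PC: algebraic witnesses and quadratic quantifiers
-/

set_option autoImplicit false

namespace Pool.Agent.U610.PC

open Polynomial Pool.Agent.R565.QF
open Pool.Agent.TH783.CE (Thin Flat Thin.mono Thin.of_finite Thin.union Thin.biUnion)

lemma finite_roots {K : Type} [Field K] {q : K[X]} (hq : q ≠ 0) : {a | q.eval a = 0}.Finite := by
  classical
  refine (q.roots.toFinset.finite_toSet).subset fun a ha => ?_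
  rw [Finset.mem_coe, Multiset.mem_toFinset]
  exact (mem_roots hq).2 ha

/-- Off a thin set, elements algebraic over `K(a)` are given by finitely many rational functions
(helper455's proof of `thin_alg`). -/
theorem alg_curves {K : Type} [Field K] [CharZero K] {n : ℕ} (G : Fin n → K[X][X])
    (hG0 : ∀ i, G i ≠ 0) :
    ∃ (Z : Set K) (c : K[X]) (J : Type) (_ : Finite J) (hh : J → Fin n → K[X]), Thin Z ∧ c ≠ 0 ∧
      ∀ (a : K) (w : Fin n → K), a ∉ Z → (∀ i, (G i).evalEval a (w i) = 0) →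
        c.eval a ≠ 0 ∧ ∃ j, w = fun i => (hh j i).eval a / c.eval a := by
  classical
  have hI : ∀ i, ∃ I : K[X][X], I.Monic ∧ ∀ a w, (G i).leadingCoeff.eval a ≠ 0 →
      (G i).evalEval a w = 0 → I.evalEval a ((G i).leadingCoeff.eval a * w) = 0 := by
    intro i
    by_cases hd : 1 ≤ (G i).natDegree
    · refine ⟨integralNormalization (G i), monic_integralNormalization (hG0 i), fun a w ha hw => ?_⟩
      have h1 := integralNormalization_eval₂_leadingCoeff_mul hd (evalRingHom a) w
      rw [eval₂_evalRingHom] at h1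
      rw [coe_evalRingHom] at h1
      rw [h1, hw, mul_zero]
    · have hd0 : (G i).natDegree = 0 := by omega
      refine ⟨1, monic_one, fun a w ha hw => ?_⟩
      exfalso
      apply ha
      rw [← map_evalRingHom_eval, eval_map, eval₂_eq_sum_range, hd0] at hw
      simpa [leadingCoeff, hd0] using hw
  choose I hIm hI using hI
  choose H hH1 hH2 hH3 using fun i => exists_prod_multiset_X_sub_C_mul (I i)
  have hHm : ∀ i, (H i).Monic := by
    intro i
    have h1 : (Multiset.map (fun a => X - C a) (I i).roots).prod.Monic :=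
      monic_multiset_prod_of_monic _ _ fun a _ => monic_X_sub_C a
    exact h1.of_mul_monic_left (by rw [hH1 i]; exact hIm i)
  have hm : (∏ i, H i).Monic := monic_prod_of_monic _ _ fun i _ => hHm i
  have hr : ∀ g : K[X], (∏ i, H i).eval g ≠ 0 := by
    intro g
    rw [eval_prod]
    refine Finset.prod_ne_zero_iff.2 fun i _ h => ?_
    have : g ∈ (H i).roots := (mem_roots (hHm i).ne_zero).2 h
    rw [hH3 i] at this
    simp at this
  set c : K[X] := ∏ i, (G i).leadingCoeff with hc
  have hc0 : c ≠ 0 := Finset.prod_ne_zero_iff.2 fun i _ => leadingCoeff_ne_zero.2 (hG0 i)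
  let hh : (∀ i : Fin n, {g // g ∈ (I i).roots.toFinset}) → Fin n → K[X] := fun j i =>
    (j i).1 * ∏ l ∈ Finset.univ.erase i, (G l).leadingCoeff
  refine ⟨{a | c.eval a = 0} ∪ {a | ∃ y : K, (∏ i, H i).evalEval a y = 0}, c,
    ∀ i : Fin n, {g // g ∈ (I i).roots.toFinset}, inferInstance, hh,
    (Thin.of_finite (finite_roots hc0)).union
      ⟨∅, Set.finite_empty, ∏ i, H i, hm, hr, fun t ht => Or.inr ht⟩, hc0, ?_⟩
  intro a w haZ hw
  have hca : c.eval a ≠ 0 := fun h => haZ (Or.inl h)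
  have hci : ∀ i, (G i).leadingCoeff.eval a ≠ 0 := by
    intro i h0
    apply hca
    rw [hc, eval_prod]
    exact Finset.prod_eq_zero (Finset.mem_univ i) h0
  have hex : ¬ ∃ y : K, (∏ i, H i).evalEval a y = 0 := fun h => haZ (Or.inr h)
  push Not at hex
  have hj : ∀ i : Fin n, ∃ g : {g // g ∈ (I i).roots.toFinset},
      (G i).leadingCoeff.eval a * w i = g.1.eval a := by
    intro i
    have h1 := hI i a (w i) (hci i) (hw i)
    rw [← hH1 i, evalEval_mul] at h1
    have h2 : (H i).evalEval a ((G i).leadingCoeff.eval a * w i) ≠ 0 := by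
      intro h0
      apply hex ((G i).leadingCoeff.eval a * w i)
      rw [evalEval_prod]
      exact Finset.prod_eq_zero (Finset.mem_univ i) h0
    have h3 := (mul_eq_zero.1 h1).resolve_right h2
    rw [← coe_evalEvalRingHom, map_multiset_prod, Multiset.map_map] at h3
    rw [Multiset.prod_eq_zero_iff, Multiset.mem_map] at h3
    obtain ⟨g, hg, hg'⟩ := h3
    refine ⟨⟨g, Multiset.mem_toFinset.2 hg⟩, ?_⟩
    simp only [Function.comp_apply, coe_evalEvalRingHom] at hg'
    have h4 : evalEval a ((G i).leadingCoeff.eval a * w i) (X - C g) =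
        (G i).leadingCoeff.eval a * w i - g.eval a := by
      simp [evalEval]
    rw [h4] at hg'
    exact sub_eq_zero.1 hg'
  choose j hj using hj
  refine ⟨hca, j, ?_⟩
  funext i
  show w i = ((j i).1 * ∏ l ∈ Finset.univ.erase i, (G l).leadingCoeff).eval a / c.eval a
  symm
  rw [div_eq_iff hca, eval_mul, ← hj i, hc, ← Finset.mul_prod_erase _ _ (Finset.mem_univ i),
    eval_mul]
  ring

/-- common denominators for finitely many polynomials at a vector of rational functions -/
theorem num_common {K : Type} [Field K] [CharZero K] {σ ι : Type} [Finite ι] (c : K[X])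
    (h : σ → K[X]) (f : ι → MvPolynomial σ K) :
    ∃ (N : ℕ) (R : ι → K[X]), ∀ (i : ι) (a : K), c.eval a ≠ 0 →
      (R i).eval a = c.eval a ^ N * MvPolynomial.eval (fun i => (h i).eval a / c.eval a) (f i) := by
  classical
  cases nonempty_fintype ι
  choose N R hR using fun i => Pool.Agent.N455.PR.num_ex c h (f i)
  refine ⟨∑ i, N i, fun i => R i * c ^ (∑ l ∈ Finset.univ.erase i, N l), fun i a ha => ?_⟩
  rw [eval_mul, eval_pow, hR i a ha, ← Finset.add_sum_erase _ _ (Finset.mem_univ i), pow_add]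
  ring

/-- the symmetric matrix of a quadratic polynomial -/
lemma matrix_of {n : ℕ} (c : ℚ[X]) (l : Fin n → ℚ[X]) (β : Fin n → Fin n → ℚ[X]) :
    ∃ A : Matrix (Fin (n + 1)) (Fin (n + 1)) ℚ[X], A.IsSymm ∧ ∀ a : ℚ,
      Sol A a ↔ ∃ z : Fin n → ℚ, qv (c.eval a) (fun i => (l i).eval a)
        (fun i j => (β i j).eval a) z = 0 := by
  set A : Matrix (Fin (n + 1)) (Fin (n + 1)) ℚ[X] :=
    Matrix.of (Fin.cons (Fin.cons c fun j => C (1 / 2) * l j) fun i =>
      Fin.cons (C (1 / 2) * l i) fun j => C (1 / 2) * (β i j + β j i)) with hA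
  have hkey : ∀ (a : ℚ) (z : Fin n → ℚ),
      (Fin.cons 1 z : Fin (n + 1) → ℚ) ⬝ᵥ (A.map (Polynomial.eval a)).mulVec
        (Fin.cons 1 z : Fin (n + 1) → ℚ) = qv (c.eval a) (fun i => (l i).eval a)
        (fun i j => (β i j).eval a) z := by
    intro a z
    simp only [dotProduct, Matrix.mulVec, Fin.sum_univ_succ, Fin.cons_zero, Fin.cons_succ, hA,
      Matrix.map_apply, Matrix.of_apply, qv, Polynomial.eval_mul,
      Polynomial.eval_C, Polynomial.eval_add, mul_one, one_mul]
    have h1 : ∑ i, ∑ j, Polynomial.eval a (β i j) * (z i * z j) =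
        ∑ i, ∑ j, Polynomial.eval a (β j i) * (z i * z j) := by
      rw [Finset.sum_comm]
      refine Finset.sum_congr rfl fun i _ => Finset.sum_congr rfl fun j _ => ?_
      ring
    have h2 : ∑ i, z i * (1 / 2 * Polynomial.eval a (l i) +
        ∑ j, 1 / 2 * (Polynomial.eval a (β i j) + Polynomial.eval a (β j i)) * z j) =
        ∑ i, 1 / 2 * Polynomial.eval a (l i) * z i +
        (1 / 2 * ∑ i, ∑ j, Polynomial.eval a (β i j) * (z i * z j) +
          1 / 2 * ∑ i, ∑ j, Polynomial.eval a (β j i) * (z i * z j)) := by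
      rw [Finset.mul_sum, Finset.mul_sum, ← Finset.sum_add_distrib, ← Finset.sum_add_distrib]
      refine Finset.sum_congr rfl fun i _ => ?_
      rw [Finset.mul_sum, Finset.mul_sum, mul_add, Finset.mul_sum, ← Finset.sum_add_distrib]
      congr 1
      · ring
      · refine Finset.sum_congr rfl fun j _ => ?_
        ring
    have h3 : ∑ i, Polynomial.eval a (l i) * z i =
        ∑ i, 1 / 2 * Polynomial.eval a (l i) * z i +
          ∑ i, 1 / 2 * Polynomial.eval a (l i) * z i := by
      rw [← Finset.sum_add_distrib]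
      refine Finset.sum_congr rfl fun i _ => ?_
      ring
    rw [h2, h3, ← h1]
    ring
  refine ⟨A, ?_, fun a => ⟨?_, ?_⟩⟩
  · ext i j
    refine Fin.cases ?_ (fun i => ?_) i <;> refine Fin.cases ?_ (fun j => ?_) j
    · rfl
    · rfl
    · rfl
    · simp only [hA, Matrix.transpose_apply, Matrix.of_apply, Fin.cons_succ]
      rw [add_comm]
  · rintro ⟨y, hy0, hy⟩
    have e : y = Fin.cons 1 fun j => y j.succ := by
      rw [← hy0]
      exact (Fin.cons_self_tail y).symm
    refine ⟨fun j => y j.succ, ?_⟩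
    rw [← hkey, ← e]
    exact hy
  · rintro ⟨z, hz⟩
    exact ⟨Fin.cons 1 z, by simp, by rw [hkey, hz]⟩

/-- the quantified variables `z` separated from the others -/
noncomputable def sep {c t : ℕ} (F : MvPolynomial (Fin 2 ⊕ (Fin c ⊕ Fin t)) ℚ) :
    MvPolynomial (Fin t) (MvPolynomial (Fin 2 ⊕ Fin c) ℚ) :=
  F.eval₂ (MvPolynomial.C.comp MvPolynomial.C)
    (Sum.elim (fun i => MvPolynomial.C (MvPolynomial.X (Sum.inl i)))
      (Sum.elim (fun i => MvPolynomial.C (MvPolynomial.X (Sum.inr i))) fun j => MvPolynomial.X j))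

lemma eval_sep {c t : ℕ} (F : MvPolynomial (Fin 2 ⊕ (Fin c ⊕ Fin t)) ℚ) (a b : ℚ)
    (w : Fin c → ℚ) (z : Fin t → ℚ) :
    MvPolynomial.eval₂ (MvPolynomial.eval (Sum.elim ![a, b] w)) z (sep F) =
      MvPolynomial.eval (Sum.elim ![a, b] (Sum.elim w z)) F := by
  have h0 : MvPolynomial.eval₂ (MvPolynomial.eval (Sum.elim ![a, b] w)) z (sep F) =
      MvPolynomial.eval₂Hom (MvPolynomial.eval (Sum.elim ![a, b] w)) z (sep F) := rfl
  rw [h0, sep, MvPolynomial.eval₂_comp_left]
  have h1 : (MvPolynomial.eval₂Hom (MvPolynomial.eval (Sum.elim ![a, b] w)) z).comp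
      (MvPolynomial.C.comp MvPolynomial.C) = RingHom.id ℚ := by
    ext r
    simp
  have h2 : (⇑(MvPolynomial.eval₂Hom (MvPolynomial.eval (Sum.elim ![a, b] w)) z) ∘
      (Sum.elim (fun i => MvPolynomial.C (MvPolynomial.X (Sum.inl i)))
      (Sum.elim (fun i => MvPolynomial.C (MvPolynomial.X (Sum.inr i)))
        fun j => MvPolynomial.X j))) = Sum.elim ![a, b] (Sum.elim w z) := by
    funext s
    rcases s with s | s | s
    · simp
    · simp
    · simp
  rw [h1, h2]
  rfl

lemma sep_degree {c t : ℕ} (F : MvPolynomial (Fin 2 ⊕ (Fin c ⊕ Fin t)) ℚ)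
    (hF : ∀ m ∈ F.support, ∑ l, m (Sum.inr (Sum.inr l)) ≤ 2) : (sep F).totalDegree ≤ 2 := by
  rw [sep, MvPolynomial.eval₂_eq']
  refine MvPolynomial.totalDegree_finsetSum_le fun m hm => ?_
  refine (MvPolynomial.totalDegree_mul _ _).trans ?_
  rw [RingHom.comp_apply, MvPolynomial.totalDegree_C, zero_add]
  refine (MvPolynomial.totalDegree_finsetProd _ _).trans ?_
  refine le_trans ?_ (hF m hm)
  rw [Fintype.sum_sum_type, Fintype.sum_sum_type]
  have e1 : ∀ i : Fin 2, ((Sum.elim (fun i => MvPolynomial.C (MvPolynomial.X (Sum.inl i)))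
      (Sum.elim (fun i => MvPolynomial.C (MvPolynomial.X (Sum.inr i)))
        fun j => MvPolynomial.X j) (Sum.inl i) :
          MvPolynomial (Fin t) (MvPolynomial (Fin 2 ⊕ Fin c) ℚ)) ^ m (Sum.inl i)).totalDegree
            ≤ 0 := by
    intro i
    refine (MvPolynomial.totalDegree_pow _ _).trans ?_
    simp
  have e2 : ∀ i : Fin c, ((Sum.elim (fun i => MvPolynomial.C (MvPolynomial.X (Sum.inl i)))
      (Sum.elim (fun i => MvPolynomial.C (MvPolynomial.X (Sum.inr i)))
        fun j => MvPolynomial.X j) (Sum.inr (Sum.inl i)) :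
          MvPolynomial (Fin t) (MvPolynomial (Fin 2 ⊕ Fin c) ℚ)) ^
            m (Sum.inr (Sum.inl i))).totalDegree ≤ 0 := by
    intro i
    refine (MvPolynomial.totalDegree_pow _ _).trans ?_
    simp
  have e3 : ∀ j : Fin t, ((Sum.elim (fun i => MvPolynomial.C (MvPolynomial.X (Sum.inl i)))
      (Sum.elim (fun i => MvPolynomial.C (MvPolynomial.X (Sum.inr i)))
        fun j => MvPolynomial.X j) (Sum.inr (Sum.inr j)) :
          MvPolynomial (Fin t) (MvPolynomial (Fin 2 ⊕ Fin c) ℚ)) ^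
            m (Sum.inr (Sum.inr j))).totalDegree ≤ m (Sum.inr (Sum.inr j)) := by
    intro j
    refine (MvPolynomial.totalDegree_pow _ _).trans ?_
    simp
  have s1 := Finset.sum_le_sum fun j (_ : j ∈ (Finset.univ : Finset (Fin 2))) => e1 j
  have s2 := Finset.sum_le_sum fun j (_ : j ∈ (Finset.univ : Finset (Fin c))) => e2 j
  have s3 := Finset.sum_le_sum fun j (_ : j ∈ (Finset.univ : Finset (Fin t))) => e3 j
  rw [Finset.sum_const_zero] at s1 s2
  omega

/-- the quadratic equation on a rational curve -/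
lemma matrix_curve {c t : ℕ} (F : MvPolynomial (Fin 2 ⊕ (Fin c ⊕ Fin t)) ℚ)
    (hF : ∀ m ∈ F.support, ∑ l, m (Sum.inr (Sum.inr l)) ≤ 2) (b : ℚ) (d : ℚ[X])
    (h : Fin c → ℚ[X]) :
    ∃ A : Matrix (Fin (t + 1)) (Fin (t + 1)) ℚ[X], A.IsSymm ∧ ∀ a : ℚ, d.eval a ≠ 0 →
      (Sol A a ↔ ∃ z : Fin t → ℚ, MvPolynomial.eval (Sum.elim ![a, b]
        (Sum.elim (fun i => (h i).eval a / d.eval a) z)) F = 0) := by
  obtain ⟨r, l, β, hq⟩ := deg_two_ring (sep F) (sep_degree F hF)
  obtain ⟨N, R, hR⟩ := num_common (K := ℚ) (ι := Unit ⊕ (Fin t ⊕ (Fin t × Fin t))) d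
    (Pool.Agent.N455.PR.crv b d h)
    (Sum.elim (fun _ => r) (Sum.elim l fun p => β p.1 p.2))
  obtain ⟨A, hA, hs⟩ := matrix_of (R (Sum.inl ())) (fun i => R (Sum.inr (Sum.inl i)))
    (fun i j => R (Sum.inr (Sum.inr (i, j))))
  refine ⟨A, hA, fun a ha => ?_⟩
  rw [hs a]
  have hN : d.eval a ^ N ≠ 0 := pow_ne_zero _ ha
  have key : ∀ z : Fin t → ℚ, qv ((R (Sum.inl ())).eval a)
      (fun i => (R (Sum.inr (Sum.inl i))).eval a)
      (fun i j => (R (Sum.inr (Sum.inr (i, j)))).eval a) z =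
      d.eval a ^ N * MvPolynomial.eval (Sum.elim ![a, b]
        (Sum.elim (fun i => (h i).eval a / d.eval a) z)) F := by
    intro z
    have e1 := fun i => hR i a ha
    rw [Pool.Agent.N455.PR.eval_crv b d h a ha] at e1
    rw [← eval_sep, hq ℚ (MvPolynomial.eval (Sum.elim ![a, b]
      (fun i => (h i).eval a / d.eval a))) z]
    simp only [qv, e1, Sum.elim_inl, Sum.elim_inr]
    rw [mul_add, mul_add, Finset.mul_sum, Finset.mul_sum]
    congr 1
    · congr 1
      refine Finset.sum_congr rfl fun i _ => ?_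
      ring
    · refine Finset.sum_congr rfl fun i _ => ?_
      rw [Finset.mul_sum]
      refine Finset.sum_congr rfl fun j _ => ?_
      ring
  constructor
  · rintro ⟨z, hz⟩
    rw [key] at hz
    exact ⟨z, (mul_eq_zero.1 hz).resolve_left hN⟩
  · rintro ⟨z, hz⟩
    exact ⟨z, by rw [key, hz, mul_zero]⟩

end Pool.Agent.U610.PC
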