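import Pool.Agent.U610.PC.Conv
import Pool.Agent.U610.PC.Mix
import Pool.Agent.N455.PR.Main

/-!
# Project PC: formulas with algebraic witnesses and quadratic quantifiers
-/

set_option autoImplicit false

namespace Pool.Agent.U610.PC

open MvPolynomial Pool.Agent.TH766.HP Pool.Agent.TH783.CE
open Pool.Agent.Results.MP_a59382_lc.CubicEquations (PoleRel)

lemma rich_fin {Q : Set ℕ} (hQ : Rich Q) {E : Set ℚ} (hE : E.Finite) :
    ∃ Q' : Set ℕ, Q' ⊆ Q ∧ Rich Q' ∧ ∀ a ∈ E, ∀ (p : ℕ) [Fact p.Prime], p ∈ Q' →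
      ‖(a : ℚ_[p])‖ ≤ 1 := by
  obtain ⟨N, hN⟩ := (hE.image Rat.den).bddAbove
  refine ⟨{p | p ∈ Q ∧ N < p}, fun p hp => hp.1, ?_, ?_⟩
  · intro s M hs
    obtain ⟨p, hp, h1, h2, h3⟩ := hQ s (max M N) hs
    exact ⟨p, hp, ⟨h1, (le_max_right _ _).trans_lt h2⟩, (le_max_left _ _).trans_lt h2, h3⟩
  · intro a ha p _ hp
    refine Padic.norm_rat_le_one fun hdvd => ?_
    have h1 := Nat.le_of_dvd a.den_pos hdvd
    have h2 : a.den ≤ N := hN ⟨a, ha, rfl⟩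
    have h3 : N < p := hp.2
    omega

/-- formulas whose witnesses are algebraic over `ℚ(a)` and quadratic quantifiers -/
theorem mixed (hM : S_MAINC) {Q : Set ℕ} (hQ : Rich Q) {s : ℕ} (c r : Fin s → ℕ)
    (f : ∀ i, Fin (r i) → MvPolynomial (Fin 2 ⊕ Fin (c i)) ℚ)
    (B : ∀ i, (Fin (r i) → Prop) → Prop) (e : Fin s → ℕ) (t : ∀ i, Fin (e i) → ℕ)
    (F : ∀ i (j : Fin (e i)), MvPolynomial (Fin 2 ⊕ (Fin (c i) ⊕ Fin (t i j))) ℚ)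
    (hF : ∀ i j, ∀ m ∈ (F i j).support, ∑ l, m (Sum.inr (Sum.inr l)) ≤ 2) (b : ℚ)
    (H : ∀ i, ℚ → (Fin (c i) → ℚ) → Prop)
    (hH : ∀ i a w, H i a w ↔ (B i (fun j => eval (Sum.elim ![a, b] w) (f i j) = 0) ∧
      ∀ j, ∃ z : Fin (t i j) → ℚ, eval (Sum.elim ![a, b] (Sum.elim w z)) (F i j) = 0))
    (hG : ∀ i, ∀ l : Fin (c i), ∃ G : Polynomial (Polynomial ℚ), G ≠ 0 ∧
      ∀ (a : ℚ) (w : Fin (c i) → ℚ), H i a w → G.evalEval a (w l) = 0)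
    (hU : ∀ (a : ℚ) i w, H i a w → ∀ (p : ℕ) [Fact p.Prime], p ∈ Q → ‖(a : ℚ_[p])‖ ≤ 1) :
    ∃ (M : ℕ) (a₀ : ℤ) (Z : Set ℚ), 0 < M ∧ Thin Z ∧ ∀ u : ℤ, (M : ℤ) ∣ u - a₀ →
      ((u : ℤ) : ℚ) ∉ Z → ∀ i w, ¬ H i ((u : ℤ) : ℚ) w := by
  classical
  choose G hG0 hG1 using hG
  choose Z d J hJ hh hZ hd hw using fun i => alg_curves (G i) (hG0 i)
  let T := (i : Fin s) × J i
  have hTfin : Finite T := inferInstance
  let pt : T → ℚ → (∀ τ : T, Fin (c τ.1) → ℚ) := fun _ a τ l =>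
    (hh τ.1 τ.2 l).eval a / (d τ.1).eval a
  let Bp : T → ℚ → Prop := fun τ a => (d τ.1).eval a ≠ 0 ∧
    B τ.1 (fun j => eval (Sum.elim ![a, b] (fun l => (hh τ.1 τ.2 l).eval a / (d τ.1).eval a))
      (f τ.1 j) = 0)
  have htame : ∀ τ : T, {a | Bp τ a}.Finite ∨ {a | ¬ Bp τ a}.Finite := fun τ =>
    Pool.Agent.N455.PR.tame_crv (f τ.1) (B τ.1) b (d τ.1) (hd τ.1) (hh τ.1 τ.2)
  choose A hA1 hA2 using fun (τ : T) (j : Fin (e τ.1)) =>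
    matrix_curve (F τ.1 j) (hF τ.1 j) b (d τ.1) (hh τ.1 τ.2)
  let T' := {τ : T // {a | ¬ Bp τ a}.Finite}
  have hT'fin : Finite T' := inferInstance
  set E : Set ℚ := ⋃ τ : T', {a | ¬ Bp τ.1 a} with hE
  have hEfin : E.Finite := Set.finite_iUnion fun τ => τ.2
  obtain ⟨Q', hQQ, hQ', hEQ⟩ := rich_fin hQ hEfin
  let φ := Finite.equivFin T'
  obtain ⟨M, a₀, Z', hM0, hZ', h3⟩ := hM Q' hQ' (Nat.card T') (fun k => e (φ.symm k).1.1)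
    (fun k j => t (φ.symm k).1.1 j) (fun k j => A (φ.symm k).1 j)
    (fun k j => hA1 (φ.symm k).1 j) (by
      intro k a ha p _ hp
      by_cases haE : a ∈ E
      · exact hEQ a haE p hp
      · have h4 : Bp (φ.symm k).1 a := by
          by_contra h5
          exact haE (Set.mem_iUnion.2 ⟨φ.symm k, h5⟩)
        refine hU a (φ.symm k).1.1 (fun l => (hh (φ.symm k).1.1 (φ.symm k).1.2 l).eval a /
          (d (φ.symm k).1.1).eval a) ((hH _ _ _).2 ⟨h4.2, fun j => ?_⟩) p (hQQ hp)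
        exact (hA2 (φ.symm k).1 j a h4.1).1 (ha j))
  have hall : ∀ u : ℤ, (M : ℤ) ∣ u - a₀ → ((u : ℤ) : ℚ) ∉ Z' → ∀ τ : T',
      ¬ ∀ j, Sol (A τ.1 j) ((u : ℤ) : ℚ) := by
    intro u hu hu' τ
    obtain ⟨k, rfl⟩ := φ.symm.surjective τ
    exact h3 u hu hu' k
  refine ⟨M, a₀, Z' ∪ ((⋃ i ∈ (Set.univ : Set (Fin s)), Z i) ∪
    ⋃ τ ∈ (Set.univ : Set T), {a | {a | Bp τ a}.Finite ∧ Bp τ a}), hM0,
    hZ'.union ((Thin.biUnion Set.finite_univ fun i _ => hZ i).union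
      (Thin.biUnion Set.finite_univ fun τ _ => ?_)), ?_⟩
  · by_cases hf : {a | Bp τ a}.Finite
    · exact Thin.of_finite (hf.subset fun a ha => ha.2)
    · refine Thin.of_finite (Set.finite_empty.subset fun a ha => ?_)
      exact absurd ha.1 hf
  · intro u hu hu' i w hHw
    have hu1 : ((u : ℤ) : ℚ) ∉ Z' := fun h => hu' (Or.inl h)
    have hu2 : ((u : ℤ) : ℚ) ∉ Z i := fun h =>
      hu' (Or.inr (Or.inl (Set.mem_biUnion (Set.mem_univ i) h)))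
    obtain ⟨hdu, j, hj⟩ := hw i _ w hu2 fun l => hG1 i l _ w hHw
    have h5 := (hH i _ w).1 hHw
    have h6 : Bp ⟨i, j⟩ ((u : ℤ) : ℚ) := by
      refine ⟨hdu, ?_⟩
      have h7 := h5.1
      rw [hj] at h7
      exact h7
    rcases htame ⟨i, j⟩ with hf | hf
    · exact hu' (Or.inr (Or.inr (Set.mem_biUnion (Set.mem_univ (⟨i, j⟩ : T)) ⟨hf, h6⟩)))
    · refine hall u hu hu1 ⟨⟨i, j⟩, hf⟩ fun l => ?_
      refine (hA2 ⟨i, j⟩ l _ hdu).2 ?_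
      have h7 := h5.2 l
      rw [hj] at h7
      exact h7

end Pool.Agent.U610.PC
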